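import Mathlib

/-!
LEMMA WALK (helper12, finding 4241), without groups.

A system of regions `r : R` with ports `P r`. The ports are joined in pairs outside (`out`, a fixed point free involution
of all ports) and in pairs inside the regions (`c r`, a fixed point free involution of `P r`). Outside and inside together
give a union of cycles; `Con` is the relation of lying on the same cycle. The inside of a region may be chosen in a set `K r`.
`Sep (K r)`: for every way to join the ports of `r` outside and for any two different outside arcs, some inside leaves at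
most two cycles, and every cycle goes through one of the two arcs. If the regions of a set `S` have this property and are
connected by three direct arcs from `r` to `r'`, then the insides can be chosen such that there are
at most two cycles through the regions of `S`.
-/

set_option autoImplicit false

namespace Pool.Agent.Lib.MP_688fd0_co.SQ4.H49

open Function Relation

universe u v

/-- A fixed point free involution. -/
def Inv {X : Type*} (a : X → X) : Prop := ∀ x, a (a x) = x ∧ a x ≠ x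

/-- The smallest equivalence relation with `x ~ a x`, `x ~ b x`. -/
def Con {X : Type*} (a b : X → X) : X → X → Prop := EqvGen fun x y => y = a x ∨ y = b x

theorem Con.rfl' {X : Type*} {a b : X → X} {x : X} : Con a b x x := EqvGen.refl _

theorem Con.symm {X : Type*} {a b : X → X} {x y : X} (h : Con a b x y) : Con a b y x := EqvGen.symm _ _ h

theorem Con.trans {X : Type*} {a b : X → X} {x y z : X} (h : Con a b x y) (h' : Con a b y z) : Con a b x z :=
  EqvGen.trans _ _ _ h h'

theorem con_left {X : Type*} (a b : X → X) (x : X) : Con a b x (a x) := EqvGen.rel _ _ (Or.inl rfl)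

theorem con_right {X : Type*} (a b : X → X) (x : X) : Con a b x (b x) := EqvGen.rel _ _ (Or.inr rfl)

/-- Recursion for `Con` (the smallest equivalence). -/
theorem Con.le {X : Type*} {a b : X → X} {ρ : X → X → Prop} (h : Equivalence ρ) (ha : ∀ x, ρ x (a x))
    (hb : ∀ x, ρ x (b x)) {x y : X} (hc : Con a b x y) : ρ x y := by
  induction hc with
  | rel x y hxy => rcases hxy with rfl | rfl <;> [exact ha x; exact hb x]
  | refl x => exact h.refl x
  | symm x y _ ih => exact h.symm ih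
  | trans x y z _ _ ih1 ih2 => exact h.trans ih1 ih2

/-- The ports `P` of a region: for every outside `O` and two different outside arcs, some inside in `K` leaves only cycles
through these two arcs. -/
def Sep {P : Type*} (K : Set (P → P)) : Prop :=
  ∀ O : P → P, Inv O → ∀ e₁ e₂, e₂ ≠ e₁ → e₂ ≠ O e₁ → ∃ k ∈ K, ∀ e, Con O k e e₁ ∨ Con O k e e₂

theorem Sep.mono {P : Type*} {K K' : Set (P → P)} (h : Sep K) (hK : K ⊆ K') : Sep K' := by
  intro O hO e₁ e₂ h1 h2
  obtain ⟨k, hk, h3⟩ := h O hO e₁ e₂ h1 h2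
  exact ⟨k, hK hk, h3⟩

/-- Transport along an equivalence. -/
theorem Sep.equiv {P P' : Type*} (φ : P ≃ P') {K : Set (P → P)} {K' : Set (P' → P')} (h : Sep K)
    (hK : ∀ k ∈ K, (fun x => φ (k (φ.symm x))) ∈ K') : Sep K' := by
  intro O hO e₁ e₂ h1 h2
  obtain ⟨k, hk, h3⟩ := h (fun x => φ.symm (O (φ x))) (by
    intro x
    refine ⟨?_, fun h => (hO (φ x)).2 ?_⟩
    · show φ.symm (O (φ (φ.symm (O (φ x))))) = x
      rw [φ.apply_symm_apply, (hO _).1, φ.symm_apply_apply]
    · have h' : φ.symm (O (φ x)) = x := h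
      rw [← φ.apply_symm_apply (O (φ x)), h']) (φ.symm e₁) (φ.symm e₂) (fun h => h1 (φ.symm.injective h)) (by
      intro h
      apply h2
      have h' : φ.symm e₂ = φ.symm (O (φ (φ.symm e₁))) := h
      rw [φ.apply_symm_apply] at h'
      exact φ.symm.injective h')
  refine ⟨_, hK k hk, fun e => ?_⟩
  have key : ∀ x y : P, Con (fun x => φ.symm (O (φ x))) k x y →
      Con O (fun x => φ (k (φ.symm x))) (φ x) (φ y) := by
    intro x y hxy
    refine Con.le (ρ := fun x y => Con O (fun x => φ (k (φ.symm x))) (φ x) (φ y))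
      ⟨fun _ => Con.rfl', fun h => h.symm, fun h h' => h.trans h'⟩ ?_ ?_ hxy
    · intro x
      show Con _ _ (φ x) (φ (φ.symm (O (φ x))))
      rw [φ.apply_symm_apply]
      exact con_left _ _ _
    · intro x
      have := con_right O (fun x => φ (k (φ.symm x))) (φ x)
      simpa using this
  rcases h3 (φ.symm e) with h | h
  · left; simpa using key _ _ h
  · right; simpa using key _ _ h

section

variable {R : Type v} {P : R → Type u}

/-- All insides together. -/
def gl (c : ∀ r, P r → P r) (e : Σ r, P r) : Σ r, P r := ⟨e.1, c e.1 e.2⟩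

theorem gl_inv {c : ∀ r, P r → P r} (hc : ∀ r, Inv (c r)) : Inv (gl c) := by
  rintro ⟨r, e⟩
  refine ⟨?_, ?_⟩
  · show (⟨r, c r (c r e)⟩ : Σ r, P r) = ⟨r, e⟩
    rw [(hc r e).1]
  · intro h
    have h' : (⟨r, c r e⟩ : Σ r, P r) = ⟨r, e⟩ := h
    rw [Sigma.mk.injEq] at h'
    exact (hc r e).2 (eq_of_heq h'.2)

/-- Connection without the inside of `r`. -/
def Out (out : (Σ r, P r) → Σ r, P r) (c : ∀ r, P r → P r) (r : R) : (Σ r, P r) → (Σ r, P r) → Prop :=
  EqvGen fun x y => y = out x ∨ (x.1 ≠ r ∧ y = gl c x)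

variable {out : (Σ r, P r) → Σ r, P r} {c : ∀ r, P r → P r} {r : R}

theorem out_equiv : Equivalence (Out out c r) := EqvGen.is_equivalence _

theorem out_con [DecidableEq R] (k : P r → P r) {x y : Σ r, P r} (h : Out out c r x y) :
    Con out (gl (update c r k)) x y := by
  induction h with
  | rel x y hxy =>
    rcases hxy with rfl | ⟨h1, rfl⟩
    · exact con_left _ _ _
    · have : gl c x = gl (update c r k) x := by
        unfold gl
        rw [update_of_ne h1]
      rw [this]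
      exact con_right _ _ _
  | refl x => exact Con.rfl'
  | symm x y _ ih => exact ih.symm
  | trans x y z _ _ ih1 ih2 => exact ih1.trans ih2

/-- The cut at the region `r`. -/
theorem cut {x y : Σ r, P r} (h : Con out (gl c) x y) :
    Out out c r x y ∨ ((∃ e, Out out c r x ⟨r, e⟩) ∧ ∃ e, Out out c r y ⟨r, e⟩) := by
  have hE := out_equiv (out := out) (c := c) (r := r)
  refine Con.le (ρ := fun x y => Out out c r x y ∨ ((∃ e, Out out c r x ⟨r, e⟩) ∧ ∃ e, Out out c r y ⟨r, e⟩))
    ⟨?_, ?_, ?_⟩ ?_ ?_ h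
  · intro x; exact Or.inl (hE.refl x)
  · rintro x y (h | ⟨h1, h2⟩)
    · exact Or.inl (hE.symm h)
    · exact Or.inr ⟨h2, h1⟩
  · rintro x y z (h | ⟨h1, h2⟩) (h' | ⟨h1', h2'⟩)
    · exact Or.inl (hE.trans h h')
    · obtain ⟨e, he⟩ := h1'
      exact Or.inr ⟨⟨e, hE.trans h he⟩, h2'⟩
    · obtain ⟨e, he⟩ := h2
      exact Or.inr ⟨h1, ⟨e, hE.trans (hE.symm h') he⟩⟩
    · exact Or.inr ⟨h1, h2'⟩
  · intro x; exact Or.inl (EqvGen.rel _ _ (Or.inl rfl))
  · intro x
    by_cases hx : x.1 = r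
    · right
      obtain ⟨s, e⟩ := x
      have hx : s = r := hx
      subst hx
      exact ⟨⟨e, hE.refl _⟩, ⟨c s e, hE.refl _⟩⟩
    · exact Or.inl (EqvGen.rel _ _ (Or.inr ⟨hx, rfl⟩))

theorem cut_port {x : Σ r, P r} {e : P r} (h : Con out (gl c) x ⟨r, e⟩) : ∃ e', Out out c r x ⟨r, e'⟩ := by
  rcases cut (r := r) h with h | ⟨h, _⟩
  · exact ⟨e, h⟩
  · exact h

/-! ### The outside arcs of a region -/

/-- One step of the walk: outside, then inside. -/
def sg (out : (Σ r, P r) → Σ r, P r) (c : ∀ r, P r → P r) (x : Σ r, P r) : Σ r, P r := gl c (out x)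

theorem sg_inj (ho : Inv out) (hc : ∀ r, Inv (c r)) : Injective (sg out c) := by
  intro x y h
  have h1 := congrArg (gl c) h
  unfold sg at h1
  rw [(gl_inv hc _).1, (gl_inv hc _).1] at h1
  have h2 := congrArg out h1
  rwa [(ho _).1, (ho _).1] at h2

/-- First return: `e` and `e'` are joined by an arc outside of `r`. -/
def Ret (out : (Σ r, P r) → Σ r, P r) (c : ∀ r, P r → P r) (r : R) (e e' : P r) : Prop :=
  ∃ n : ℕ, out ((sg out c)^[n] ⟨r, e⟩) = ⟨r, e'⟩ ∧ ∀ m < n, (out ((sg out c)^[m] ⟨r, e⟩)).1 ≠ r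

theorem ret_exists [Finite (Σ r, P r)] (ho : Inv out) (hc : ∀ r, Inv (c r)) (e : P r) :
    ∃ e', Ret out c r e e' := by
  classical
  have hex : ∃ n : ℕ, (out ((sg out c)^[n] ⟨r, e⟩)).1 = r := by
    have hp : (⟨r, e⟩ : Σ r, P r) ∈ periodicPts (sg out c) := (sg_inj ho hc).mem_periodicPts _
    obtain ⟨n, hn, hper⟩ := mem_periodicPts.1 hp
    obtain ⟨m, rfl⟩ : ∃ m, n = m + 1 := ⟨n - 1, by omega⟩
    refine ⟨m, ?_⟩
    have h1 : (sg out c)^[m + 1] ⟨r, e⟩ = ⟨r, e⟩ := hper
    rw [iterate_succ_apply'] at h1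
    have h2 : (sg out c ((sg out c)^[m] ⟨r, e⟩)).1 = r := by rw [h1]
    exact h2
  have h1 := Nat.find_spec hex
  have h2 : ∀ m < Nat.find hex, (out ((sg out c)^[m] ⟨r, e⟩)).1 ≠ r := fun m hm => Nat.find_min hex hm
  generalize Nat.find hex = n at h1 h2
  generalize hy : out ((sg out c)^[n] ⟨r, e⟩) = y at h1
  obtain ⟨s, e'⟩ := y
  have h1 : s = r := h1
  subst h1
  exact ⟨e', n, hy, h2⟩

theorem ret_unique {e e₁ e₂ : P r} (h₁ : Ret out c r e e₁) (h₂ : Ret out c r e e₂) : e₁ = e₂ := by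
  obtain ⟨n, h1, h2⟩ := h₁
  obtain ⟨m, h3, h4⟩ := h₂
  have hnm : n = m := by
    rcases lt_trichotomy n m with h | h | h
    · exact absurd (by rw [h1]) (h4 n h)
    · exact h
    · exact absurd (by rw [h3]) (h2 m h)
  subst hnm
  rw [h1, Sigma.mk.injEq] at h3
  exact eq_of_heq h3.2

/-- The reversed walk. -/
theorem rev_walk (ho : Inv out) (hc : ∀ r, Inv (c r)) (x : Σ r, P r) (n : ℕ) :
    ∀ m ≤ n, (sg out c)^[m] (out ((sg out c)^[n] x)) = out ((sg out c)^[n - m] x) := by
  intro m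
  induction m with
  | zero => intro _; rfl
  | succ m ih =>
    intro hm
    rw [iterate_succ_apply', ih (by omega)]
    obtain ⟨j, hj⟩ : ∃ j, n - m = j + 1 := ⟨n - m - 1, by omega⟩
    have hj' : n - (m + 1) = j := by omega
    rw [hj, hj', iterate_succ_apply']
    show gl c (out (out (gl c (out ((sg out c)^[j] x))))) = _
    rw [(ho _).1, (gl_inv hc _).1]

theorem ret_symm (ho : Inv out) (hc : ∀ r, Inv (c r)) {e e' : P r} (h : Ret out c r e e') : Ret out c r e' e := by
  obtain ⟨n, h1, h2⟩ := h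
  refine ⟨n, ?_, ?_⟩
  · rw [← h1, rev_walk ho hc _ n n le_rfl, Nat.sub_self, (ho _).1]
    rfl
  · intro m hm
    rw [← h1, rev_walk ho hc _ n m hm.le, (ho _).1]
    obtain ⟨j, hj⟩ : ∃ j, n - m = j + 1 := ⟨n - m - 1, by omega⟩
    rw [hj, iterate_succ_apply']
    exact h2 j (by omega)

theorem ret_ne (ho : Inv out) (hc : ∀ r, Inv (c r)) {e : P r} (h : Ret out c r e e) : False := by
  obtain ⟨n, h1, -⟩ := h
  have key : ∀ m ≤ n, (sg out c)^[m] ⟨r, e⟩ = out ((sg out c)^[n - m] ⟨r, e⟩) := by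
    intro m hm
    have := rev_walk ho hc (⟨r, e⟩ : Σ r, P r) n m hm
    rwa [h1] at this
  rcases Nat.even_or_odd' n with ⟨j, hj | hj⟩
  · have := key j (by omega)
    rw [show n - j = j by omega] at this
    exact (ho _).2 this.symm
  · have := key (j + 1) (by omega)
    rw [show n - (j + 1) = j by omega, iterate_succ_apply'] at this
    exact (gl_inv hc _).2 this

theorem ret_out {e e' : P r} (h : Ret out c r e e') : Out out c r ⟨r, e⟩ ⟨r, e'⟩ := by
  obtain ⟨n, h1, h2⟩ := h
  have hE := out_equiv (out := out) (c := c) (r := r)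
  have key : ∀ m ≤ n, Out out c r ⟨r, e⟩ ((sg out c)^[m] ⟨r, e⟩) := by
    intro m
    induction m with
    | zero => intro _; exact hE.refl _
    | succ m ih =>
      intro hm
      refine hE.trans (ih (by omega)) ?_
      rw [iterate_succ_apply']
      refine hE.trans (y := out ((sg out c)^[m] ⟨r, e⟩)) (EqvGen.rel _ _ (Or.inl rfl)) ?_
      exact EqvGen.rel _ _ (Or.inr ⟨h2 m (by omega), rfl⟩)
  rw [← h1]
  exact hE.trans (key n le_rfl) (EqvGen.rel _ _ (Or.inl rfl))

/-- The outside arcs of `r` are given by a fixed point free involution. -/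
theorem exists_arcs [Finite (Σ r, P r)] (ho : Inv out) (hc : ∀ r, Inv (c r)) (r : R) :
    ∃ O : P r → P r, Inv O ∧ ∀ e, Out out c r ⟨r, e⟩ ⟨r, O e⟩ := by
  choose O hO using fun e : P r => ret_exists (out := out) (c := c) ho hc e
  refine ⟨O, fun e => ⟨?_, ?_⟩, fun e => ret_out (hO e)⟩
  · exact ret_unique (hO (O e)) (ret_symm ho hc (hO e))
  · intro h
    have := hO e
    rw [h] at this
    exact ret_ne ho hc this

/-- A new inside of `r`: all ports of `r` are connected to two of three given ports. -/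
theorem pick [DecidableEq R] [Finite (Σ r, P r)] (ho : Inv out) (hc : ∀ r, Inv (c r)) {K : Set (P r → P r)}
    (hK : Sep K) (p : Fin 3 → P r) (hp : Injective p) :
    ∃ k ∈ K, ∃ i j : Fin 3, ∀ e, Con out (gl (update c r k)) ⟨r, e⟩ ⟨r, p i⟩ ∨
      Con out (gl (update c r k)) ⟨r, e⟩ ⟨r, p j⟩ := by
  obtain ⟨O, hO, hO'⟩ := exists_arcs ho hc r
  obtain ⟨i, j, h1, h2⟩ : ∃ i j : Fin 3, p j ≠ p i ∧ p j ≠ O (p i) := by
    by_cases h : p 1 = O (p 0)
    · refine ⟨0, 2, fun h' => absurd (hp h') (by decide), fun h' => ?_⟩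
      exact absurd (hp (h'.trans h.symm)) (by decide)
    · exact ⟨0, 1, fun h' => absurd (hp h') (by decide), h⟩
  obtain ⟨k, hk, h3⟩ := hK O hO _ _ h1 h2
  refine ⟨k, hk, i, j, fun e => ?_⟩
  have key : ∀ x y : P r, Con O k x y → Con out (gl (update c r k)) ⟨r, x⟩ ⟨r, y⟩ := by
    intro x y hxy
    refine Con.le (ρ := fun x y : P r => Con out (gl (update c r k)) ⟨r, x⟩ ⟨r, y⟩)
      ⟨fun _ => Con.rfl', fun h => h.symm, fun h h' => h.trans h'⟩ ?_ ?_ hxy
    · intro x; exact out_con k (hO' x)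
    · intro x
      have := con_right out (gl (update c r k)) ⟨r, x⟩
      unfold gl at this
      rw [update_self] at this
      exact this
  rcases h3 e with h | h
  · exact Or.inl (key _ _ h)
  · exact Or.inr (key _ _ h)

/-! ### The walk -/

/-- Three arcs go directly from `r` to `r'`. -/
def Adj (out : (Σ r, P r) → Σ r, P r) (r r' : R) : Prop :=
  ∃ p : Fin 3 → P r, Injective p ∧ ∀ i, (out ⟨r, p i⟩).1 = r'

/-- Everything that is connected with a region of `T` is connected with `r`. -/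
def Jn (out : (Σ r, P r) → Σ r, P r) (c : ∀ r, P r → P r) (T : Set R) (r : R) : Prop :=
  ∀ x : Σ r, P r, x.1 ∈ T → ∃ e, Con out (gl c) x ⟨r, e⟩

/-- Being connected to a region of `S` is preserved if an inside in `S` is changed. -/
theorem pres [DecidableEq R] {S : Set R} (hr : r ∈ S) (k : P r → P r) {x : Σ r, P r}
    (h : ∃ y : Σ r, P r, y.1 ∈ S ∧ Con out (gl c) x y) :
    ∃ y : Σ r, P r, y.1 ∈ S ∧ Con out (gl (update c r k)) x y := by
  obtain ⟨y, hy, h⟩ := h
  rcases cut (r := r) h with h | ⟨⟨e, h⟩, _⟩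
  · exact ⟨y, hy, out_con k h⟩
  · exact ⟨⟨r, e⟩, hr, out_con k h⟩

/-- One step of the walk. -/
theorem jn_step [DecidableEq R] [Finite (Σ r, P r)] (ho : Inv out) (hc : ∀ r, Inv (c r)) {K : Set (P r → P r)}
    (hK : Sep K) {T : Set R} (hJ : Jn out c T r) (p : Fin 3 → P r) (hp : Injective p) :
    ∃ k ∈ K, ∃ i j : Fin 3, ∀ x : Σ r, P r, x.1 ∈ T ∨ x.1 = r →
      Con out (gl (update c r k)) x ⟨r, p i⟩ ∨ Con out (gl (update c r k)) x ⟨r, p j⟩ := by
  obtain ⟨k, hk, i, j, h⟩ := pick ho hc hK p hp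
  refine ⟨k, hk, i, j, fun x hx => ?_⟩
  obtain ⟨e, he⟩ : ∃ e, Out out c r x ⟨r, e⟩ := by
    rcases hx with hx | hx
    · obtain ⟨e, he⟩ := hJ x hx
      exact cut_port he
    · obtain ⟨s, e⟩ := x
      have hx : s = r := hx
      subst hx
      exact ⟨e, out_equiv.refl _⟩
  have h1 := out_con k he
  rcases h e with h | h
  · exact Or.inl (h1.trans h)
  · exact Or.inr (h1.trans h)

/-- LEMMA WALK. -/
theorem walk [Finite (Σ r, P r)] (ho : Inv out) (K : ∀ r, Set (P r → P r)) (hKi : ∀ r, ∀ k ∈ K r, Inv k) (S : Set R)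
    (hS : S.Finite) (hK : ∀ r ∈ S, Sep (K r)) (c₀ : ∀ r, P r → P r) (hc₀ : ∀ r, c₀ r ∈ K r) (r₀ : R) (hr₀ : r₀ ∈ S)
    (h3 : ∀ r ∈ S, ∃ p : Fin 3 → P r, Injective p)
    (hconn : ∀ r ∈ S, ∀ r' ∈ S, ReflTransGen (fun r r' => r' ∈ S ∧ Adj out r r') r r') :
    ∃ c : ∀ r, P r → P r, (∀ r, c r ∈ K r) ∧ (∀ r, r ∉ S → c r = c₀ r) ∧ ∃ r ∈ S, ∃ f₁ f₂ : P r,
      ∀ x : Σ r, P r, (∃ y : Σ r, P r, y.1 ∈ S ∧ Con out (gl c₀) x y) →
        Con out (gl c) x ⟨r, f₁⟩ ∨ Con out (gl c) x ⟨r, f₂⟩ := by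
  classical
  -- the state of the walk
  let St : Set R → (∀ r, P r → P r) → R → Prop := fun T c r =>
    (∀ r, c r ∈ K r) ∧ (∀ r, r ∉ S → c r = c₀ r) ∧ r ∈ S ∧ Jn out c T r ∧
      ∀ x : Σ r, P r, (∃ y : Σ r, P r, y.1 ∈ S ∧ Con out (gl c₀) x y) → ∃ y : Σ r, P r, y.1 ∈ S ∧ Con out (gl c) x y
  have hupd : ∀ (c : ∀ r, P r → P r) (r : R) (k : P r → P r), (∀ r, c r ∈ K r) → k ∈ K r →
      ∀ s, update c r k s ∈ K s := by
    intro c r k hc hk s
    by_cases hs : s = r
    · subst hs; rwa [update_self]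
    · rw [update_of_ne hs]; exact hc s
  have hupd' : ∀ (c : ∀ r, P r → P r) (r : R) (k : P r → P r), (∀ r, r ∉ S → c r = c₀ r) → r ∈ S →
      ∀ s, s ∉ S → update c r k s = c₀ s := by
    intro c r k hc hr s hs
    have hne : s ≠ r := fun h => hs (h ▸ hr)
    rw [update_of_ne hne]; exact hc s hs
  -- along a path
  have path : ∀ (T : Set R) (r r' : R), ReflTransGen (fun r r' => r' ∈ S ∧ Adj out r r') r r' →
      ∀ c, St T c r → ∃ c', St T c' r' := by
    intro T r r' h
    induction h with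
    | refl => intro c hc; exact ⟨c, hc⟩
    | @tail s t _ hst ih =>
      intro c hc
      obtain ⟨c', h1, h2, h3', h4, h5⟩ := ih c hc
      obtain ⟨ht, p, hp, hpt⟩ := hst
      obtain ⟨k, hk, i, j, h6⟩ := jn_step ho (fun r => hKi r _ (h1 r)) (hK s h3') h4 p hp
      refine ⟨update c' s k, hupd _ _ _ h1 hk, hupd' _ _ _ h2 h3', ht, ?_, ?_⟩
      · intro x hx
        have hm : ∀ l : Fin 3, Con out (gl (update c' s k)) x ⟨s, p l⟩ →
            ∃ e, Con out (gl (update c' s k)) x ⟨t, e⟩ := by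
          intro l hl
          have h7 := hl.trans (con_left _ _ _)
          have h8 := hpt l
          generalize out ⟨s, p l⟩ = y at h7 h8
          obtain ⟨t', e⟩ := y
          have h8 : t' = t := h8
          subst h8
          exact ⟨e, h7⟩
        rcases h6 x (Or.inl hx) with h | h
        · exact hm _ h
        · exact hm _ h
      · intro x hx
        exact pres h3' k (h5 x hx)
  -- all regions
  have all : ∀ T : Set R, T.Finite → T ⊆ S → ∃ c r, St T c r := by
    intro T hT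
    induction T, hT using Set.Finite.induction_on with
    | empty =>
      intro _
      exact ⟨c₀, r₀, hc₀, fun _ _ => rfl, hr₀, fun x hx => absurd hx (Set.notMem_empty _), fun x hx => hx⟩
    | @insert t T _ _ ih =>
      intro hTS
      obtain ⟨c, r, hc⟩ := ih fun x hx => hTS (Set.mem_insert_of_mem _ hx)
      have ht : t ∈ S := hTS (Set.mem_insert _ _)
      obtain ⟨c', h1, h2, h3', h4, h5⟩ := path T r t (hconn r hc.2.2.1 t ht) c hc
      refine ⟨c', t, h1, h2, h3', ?_, h5⟩
      intro x hx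
      rcases hx with hx | hx
      · obtain ⟨s, e⟩ := x
        have hx : s = t := hx
        subst hx
        exact ⟨e, Con.rfl'⟩
      · exact h4 x hx
  obtain ⟨c, r, h1, h2, h3', h4, h5⟩ := all S hS le_rfl
  obtain ⟨p, hp⟩ := h3 r h3'
  obtain ⟨k, hk, i, j, h6⟩ := jn_step ho (fun r => hKi r _ (h1 r)) (hK r h3') h4 p hp
  refine ⟨update c r k, hupd _ _ _ h1 hk, hupd' _ _ _ h2 h3', r, h3', p i, p j, fun x hx => ?_⟩
  obtain ⟨y, hy, hxy⟩ := pres h3' k (h5 x hx)
  rcases h6 y (Or.inl hy) with h | h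
  · exact Or.inl (hxy.trans h)
  · exact Or.inr (hxy.trans h)

end

end Pool.Agent.Lib.MP_688fd0_co.SQ4.H49
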